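import Pool.Agent.K6.H26.RD.Stm

set_option autoImplicit false

/-! Piece AVG (helper13): the average over the shifts of the grid. -/

namespace Pool.Agent.K6.H26.RD

open Finset

namespace AVG

/-- at most half of the shifts separate `p` and `p + d` at a level `j` with `2 d ≤ 2 ^ j` -/
theorem good (J j p d : ℕ) (hj : j ≤ J) (hd : 2 * d ≤ 2 ^ j) :
    2 ^ J ≤ 2 * ((range (2 ^ J)).filter
      (fun τ => (p + d + τ) / 2 ^ j = (p + τ) / 2 ^ j)).card := by
  set g : ℕ → ℕ := fun τ => (p + τ) / 2 ^ j with hg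
  have hmono : ∀ a b, a ≤ b → g a ≤ g b := fun a b h => Nat.div_le_div_right (by omega)
  have hper : ∀ τ, g (2 ^ J + τ) = g τ + 2 ^ (J - j) := by
    intro τ
    simp only [hg]
    have : p + (2 ^ J + τ) = (p + τ) + 2 ^ j * 2 ^ (J - j) := by
      rw [← pow_add, Nat.add_sub_cancel' hj]
      ring
    rw [this, Nat.add_mul_div_left _ _ (by positivity)]
  have h1 : ∑ τ ∈ range (2 ^ J), g (d + τ) = ∑ τ ∈ range (2 ^ J), g τ + d * 2 ^ (J - j) := by
    have a := Finset.sum_range_add g d (2 ^ J)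
    have b := Finset.sum_range_add g (2 ^ J) d
    rw [add_comm d (2 ^ J)] at a
    have c : ∑ x ∈ range d, g (2 ^ J + x) = ∑ x ∈ range d, g x + d * 2 ^ (J - j) := by
      rw [Finset.sum_congr rfl (fun x _ => hper x), Finset.sum_add_distrib]
      simp
    omega
  have h2 : ∑ τ ∈ range (2 ^ J), (g τ + (if g (d + τ) = g τ then 0 else 1)) ≤
      ∑ τ ∈ range (2 ^ J), g (d + τ) := by
    refine Finset.sum_le_sum fun τ _ => ?_
    have := hmono τ (d + τ) (by omega)
    split_ifs with h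
    · omega
    · omega
  rw [Finset.sum_add_distrib] at h2
  have h3 : ∑ τ ∈ range (2 ^ J), (if g (d + τ) = g τ then 0 else 1) +
      ((range (2 ^ J)).filter (fun τ => g (d + τ) = g τ)).card = 2 ^ J := by
    rw [Finset.card_filter, ← Finset.sum_add_distrib]
    rw [Finset.sum_congr rfl (g := fun _ => 1)]
    · simp
    · intro x _
      split_ifs <;> rfl
  have h4 : 2 * (d * 2 ^ (J - j)) ≤ 2 ^ J := by
    calc 2 * (d * 2 ^ (J - j)) = (2 * d) * 2 ^ (J - j) := by ring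
      _ ≤ 2 ^ j * 2 ^ (J - j) := Nat.mul_le_mul_right _ hd
      _ = 2 ^ J := by rw [← pow_add, Nat.add_sub_cancel' hj]
  have h5 : (range (2 ^ J)).filter (fun τ => (p + d + τ) / 2 ^ j = (p + τ) / 2 ^ j) =
      (range (2 ^ J)).filter (fun τ => g (d + τ) = g τ) := by
    simp only [hg, add_assoc]
  rw [h5]
  omega

/-- the weight of a pair -/
noncomputable def W (J p q : ℕ) : ℝ :=
  ∑ τ ∈ range (2 ^ J), ∑ j ∈ Icc 1 J,
    (if q ≠ p ∧ (q + τ) / 2 ^ j = (p + τ) / 2 ^ j then (1 : ℝ) else 0) / 2 ^ j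

theorem W_nonneg (J p q : ℕ) : 0 ≤ W J p q := by
  unfold W
  refine Finset.sum_nonneg fun τ _ => Finset.sum_nonneg fun j _ => ?_
  split_ifs <;> positivity

theorem W_comm (J p q : ℕ) : W J p q = W J q p := by
  unfold W
  refine Finset.sum_congr rfl fun τ _ => Finset.sum_congr rfl fun j _ => ?_
  congr 1
  refine if_congr ?_ rfl rfl
  constructor
  · rintro ⟨h1, h2⟩
    exact ⟨h1.symm, h2.symm⟩
  · rintro ⟨h1, h2⟩
    exact ⟨h1.symm, h2.symm⟩

theorem W_ge (J p q : ℕ) (hpq : p < q) (hq : 4 * q < 2 ^ J) :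
    (2 : ℝ) ^ J / 8 * (1 / ((q : ℝ) - p)) ≤ W J p q := by
  obtain ⟨d, rfl⟩ : ∃ d, q = p + d := ⟨q - p, by omega⟩
  have hd : 1 ≤ d := by omega
  set j := Nat.clog 2 (2 * d) with hj
  have hj1 : 2 * d ≤ 2 ^ j := Nat.le_pow_clog (by norm_num) _
  have hj0 : 1 ≤ j := by
    rcases Nat.eq_zero_or_pos j with h | h
    · rw [h] at hj1
      omega
    · exact h
  have hj2 : 2 ^ j ≤ 4 * d := by
    have h := Nat.pow_pred_clog_lt_self (b := 2) (by norm_num) (x := 2 * d) (by omega)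
    rw [← hj] at h
    have e : 2 ^ j = 2 * 2 ^ (j - 1) := by
      rw [← pow_succ']
      congr 1
      omega
    rw [Nat.pred_eq_sub_one] at h
    omega
  have hjJ : j ≤ J := by
    rw [hj]
    refine (Nat.clog_le_iff_le_pow (by norm_num)).2 ?_
    omega
  have hc := good J j p d hjJ hj1
  have e1 : W J p (p + d) ≥ ∑ τ ∈ range (2 ^ J),
      (if (p + d + τ) / 2 ^ j = (p + τ) / 2 ^ j then (1 : ℝ) else 0) / 2 ^ j := by
    unfold W
    refine Finset.sum_le_sum fun τ _ => ?_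
    have hmem : j ∈ Icc 1 J := Finset.mem_Icc.2 ⟨hj0, hjJ⟩
    refine le_trans (le_of_eq ?_) (Finset.single_le_sum (f := fun j =>
      (if p + d ≠ p ∧ (p + d + τ) / 2 ^ j = (p + τ) / 2 ^ j then (1 : ℝ) else 0) / 2 ^ j)
      (fun i _ => by split_ifs <;> positivity) hmem)
    have : d ≠ 0 := by omega
    simp [this]
  rw [← Finset.sum_div] at e1
  have e2 : ∑ τ ∈ range (2 ^ J),
      (if (p + d + τ) / 2 ^ j = (p + τ) / 2 ^ j then (1 : ℝ) else 0) =
      (((range (2 ^ J)).filter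
        (fun τ => (p + d + τ) / 2 ^ j = (p + τ) / 2 ^ j)).card : ℝ) := by
    rw [Finset.card_filter]
    push_cast
    rfl
  rw [e2] at e1
  refine le_trans ?_ e1
  have hc' : (2 : ℝ) ^ J ≤ 2 * (((range (2 ^ J)).filter
      (fun τ => (p + d + τ) / 2 ^ j = (p + τ) / 2 ^ j)).card : ℝ) := by
    exact_mod_cast hc
  have hj2' : (2 : ℝ) ^ j ≤ 4 * d := by exact_mod_cast hj2
  have hd' : (1 : ℝ) ≤ d := by exact_mod_cast hd
  have e3 : (((p + d : ℕ) : ℝ) - p) = d := by
    push_cast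
    ring
  rw [e3, le_div_iff₀ (by positivity)]
  have hT : (0 : ℝ) < 2 ^ J := by positivity
  calc (2 : ℝ) ^ J / 8 * (1 / d) * 2 ^ j ≤ (2 : ℝ) ^ J / 8 * (1 / d) * (4 * d) := by
        refine mul_le_mul_of_nonneg_left hj2' (by positivity)
    _ = (2 : ℝ) ^ J / 2 := by
        field_simp
        norm_num
    _ ≤ _ := by linarith

end AVG

open AVG

theorem t_AVG : S_AVG := by
  classical
  intro s J C hs hC
  have hT : (0 : ℝ) < 2 ^ J := by positivity
  have h1 : ∑ τ ∈ range (2 ^ J), ∑ p ∈ s, ∑ j ∈ Icc 1 J, (mm s τ j p : ℝ) / 2 ^ j ≤ 2 ^ J * C := by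
    refine (Finset.sum_le_sum fun τ _ => hC τ).trans ?_
    rw [Finset.sum_const, Finset.card_range, nsmul_eq_mul]
    push_cast
    exact le_rfl
  have h2 : ∑ τ ∈ range (2 ^ J), ∑ p ∈ s, ∑ j ∈ Icc 1 J, (mm s τ j p : ℝ) / 2 ^ j =
      ∑ p ∈ s, ∑ q ∈ s, W J p q := by
    rw [Finset.sum_comm]
    refine Finset.sum_congr rfl fun p _ => ?_
    unfold W
    symm
    rw [Finset.sum_comm]
    refine Finset.sum_congr rfl fun τ _ => ?_
    rw [Finset.sum_comm]
    refine Finset.sum_congr rfl fun j _ => ?_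
    rw [← Finset.sum_div]
    congr 1
    unfold mm
    rw [Finset.card_filter]
    push_cast
    rfl
  have h3 : ∑ p ∈ s, ∑ q ∈ s.filter (fun q => p < q), W J p q +
      ∑ p ∈ s, ∑ q ∈ s.filter (fun q => q < p), W J p q ≤ ∑ p ∈ s, ∑ q ∈ s, W J p q := by
    rw [← Finset.sum_add_distrib]
    refine Finset.sum_le_sum fun p _ => ?_
    rw [← Finset.sum_union]
    · refine Finset.sum_le_sum_of_subset_of_nonneg ?_ fun q _ _ => W_nonneg J p q
      exact Finset.union_subset (Finset.filter_subset _ _) (Finset.filter_subset _ _)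
    · rw [Finset.disjoint_left]
      intro q hq1 hq2
      rw [Finset.mem_filter] at hq1 hq2
      omega
  have h4 : ∑ p ∈ s, ∑ q ∈ s.filter (fun q => q < p), W J p q =
      ∑ p ∈ s, ∑ q ∈ s.filter (fun q => p < q), W J p q := by
    rw [Finset.sum_comm' (t' := s) (s' := fun q => s.filter (fun p => q < p))]
    · refine Finset.sum_congr rfl fun q _ => Finset.sum_congr rfl fun p _ => W_comm J p q
    · intro p q
      rw [Finset.mem_filter, Finset.mem_filter]
      tauto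
  have h5 : ∑ p ∈ s, ∑ q ∈ s.filter (fun q => p < q),
      (2 : ℝ) ^ J / 8 * (1 / ((q : ℝ) - p)) ≤
      ∑ p ∈ s, ∑ q ∈ s.filter (fun q => p < q), W J p q := by
    refine Finset.sum_le_sum fun p _ => Finset.sum_le_sum fun q hq => ?_
    rw [Finset.mem_filter] at hq
    exact W_ge J p q hq.2 (hs q hq.1)
  have h6 : ∑ p ∈ s, ∑ q ∈ s.filter (fun q => p < q), (2 : ℝ) ^ J / 8 * (1 / ((q : ℝ) - p)) =
      (2 : ℝ) ^ J / 8 * ∑ p ∈ s, ∑ q ∈ s.filter (fun q => p < q), (1 : ℝ) / ((q : ℝ) - (p : ℝ)) := by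
    simp only [Finset.mul_sum]
  rw [h6] at h5
  set A := ∑ p ∈ s, ∑ q ∈ s.filter (fun q => p < q), (1 : ℝ) / ((q : ℝ) - (p : ℝ)) with hA
  have h7 : (2 : ℝ) ^ J * (A / 4) ≤ 2 ^ J * C := by
    rw [h2] at h1
    rw [h4] at h3
    linarith
  have h8 := le_of_mul_le_mul_left h7 hT
  linarith

end Pool.Agent.K6.H26.RD
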