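import Pool.Agent.K6.H26.RD.Stm

set_option autoImplicit false

/-! # Reciprocal differences of primes: assembly -/

namespace Pool.Agent.K6.H26.RD

open Finset

theorem rr_nonneg (s : Finset ℕ) (τ j p : ℕ) : 0 ≤ rr s τ j p := by
  unfold rr
  positivity

theorem main_of (hOVL : S_OVL) (hLEV : S_LEV) (hSUM : S_SUM) (hAVG : S_AVG) (hBTB : S_BTB)
    (hPRS : S_PRS) : ∃ c : ℝ, ∀ s : Finset ℕ, s.Nonempty → (∀ p ∈ s, Nat.Prime p) →
      (∑ p ∈ s, ∑ q ∈ s.filter (fun q => p < q), (1 : ℝ) / ((q : ℝ) - (p : ℝ))) <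
        c * (s.card : ℝ) := by
  obtain ⟨C₁, hC₁, hBT⟩ := hBTB
  obtain ⟨C₂, hC₂, hPR⟩ := hPRS
  obtain ⟨C₃, hC₃⟩ : ∃ C₃ : ℝ, C₃ = 8 * C₂ ^ (1 / 4 : ℝ) := ⟨_, rfl⟩
  have hC₃0 : 0 < C₃ := by rw [hC₃]; positivity
  refine ⟨4 * (C₁ + 4 * C₃ * C₁ ^ (1 / 2 : ℝ)) + 1, fun s hne hs => ?_⟩
  have hcard : (0 : ℝ) < (s.card : ℝ) := by exact_mod_cast hne.card_pos
  obtain ⟨J, hJ⟩ : ∃ J : ℕ, J = 4 * s.sup id := ⟨_, rfl⟩
  have hJp : ∀ p ∈ s, 4 * p < 2 ^ J := by
    intro p hp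
    have h1 : p ≤ s.sup id := Finset.le_sup (f := id) hp
    have h2 : J < 2 ^ J := Nat.lt_two_pow_self
    omega
  have hτ : ∀ τ : ℕ, ∑ p ∈ s, ∑ j ∈ Icc 1 J, (mm s τ j p : ℝ) / 2 ^ j ≤
      (C₁ + 4 * C₃ * C₁ ^ (1 / 2 : ℝ)) * (s.card : ℝ) := by
    intro τ
    have h1 := hSUM s J (fun j p => rr s τ j p) C₁ C₃ hC₁ hC₃0 (fun j p => rr_nonneg s τ j p)
      (fun j hj p hp => hBT s hs τ j p (mem_Icc.1 hj).1 hp) (fun lam hlam => by
        have h2 := hLEV s J (fun j => s.filter (fun p => lam < rr s τ j p)) (C₂ / lam ^ 2)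
          (by positivity) (fun j => Finset.filter_subset _ _) (fun i j hi hij _ => by
            have h3 := hOVL s τ C₂ lam hC₂ hlam (hPR s hs τ) i j hi hij
            have h4 : s.filter (fun p => lam < rr s τ i p) ∩ s.filter (fun p => lam < rr s τ j p) =
                s.filter (fun p => lam < rr s τ i p ∧ lam < rr s τ j p) := by
              ext p
              simp only [mem_inter, mem_filter]
              tauto
            rw [h4]
            exact h3)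
        have h5 : (C₂ / lam ^ 2) ^ (1 / 4 : ℝ) = C₂ ^ (1 / 4 : ℝ) * lam ^ (-(1 / 2) : ℝ) := by
          rw [Real.div_rpow hC₂.le (by positivity), ← Real.rpow_natCast lam 2, ← Real.rpow_mul hlam.le,
            Real.rpow_neg hlam.le, div_eq_mul_inv]
          norm_num
        rw [h5] at h2
        refine h2.trans (le_of_eq ?_)
        rw [hC₃]
        ring)
    refine le_trans (le_of_eq ?_) h1
    apply Finset.sum_congr rfl
    intro p _
    apply Finset.sum_congr rfl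
    intro j hj
    have hj1 := (mem_Icc.1 hj).1
    have hj0 : (j : ℝ) ≠ 0 := by
      have : j ≠ 0 := by omega
      exact_mod_cast this
    simp only [rr]
    field_simp
  have hfin := hAVG s J _ hJp hτ
  have e : (4 * (C₁ + 4 * C₃ * C₁ ^ (1 / 2 : ℝ)) + 1) * (s.card : ℝ) =
      4 * ((C₁ + 4 * C₃ * C₁ ^ (1 / 2 : ℝ)) * (s.card : ℝ)) + s.card := by ring
  rw [e]
  linarith

end Pool.Agent.K6.H26.RD
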