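import Pool.Agent.K6.H26.RD.Stm
import Pool.Agent.H692R2.USS.T1

/-! Piece BTB (helper48): Brun-Titchmarsh for the cells. -/

set_option autoImplicit false

namespace Pool.Agent.K6.H26.RD

open Finset

theorem t_BTB : S_BTB := by
  have hlog : 0 < Real.log 2 := Real.log_pos (by norm_num)
  refine ⟨22 / Real.log 2, by positivity, ?_⟩
  intro s hs τ j p hj hp
  set a : ℕ := (p + τ) / 2 ^ j * 2 ^ j - τ with ha
  have h2j : 2 ≤ 2 ^ j := by
    calc 2 = 2 ^ 1 := by norm_num
      _ ≤ 2 ^ j := Nat.pow_le_pow_right (by norm_num) hj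
  have hcell : ∀ q, (q + τ) / 2 ^ j = (p + τ) / 2 ^ j → a ≤ q ∧ q < a + 2 ^ j := by
    intro q hq
    have h1 := Nat.div_add_mod (q + τ) (2 ^ j)
    have h2 := Nat.mod_lt (q + τ) (show 0 < 2 ^ j by positivity)
    rw [hq, mul_comm] at h1
    rw [ha]
    omega
  have hcard : mm s τ j p ≤ ((range (2 ^ j)).filter (fun k => (a + k * 1).Prime)).card := by
    unfold mm
    apply card_le_card_of_injOn (fun q => q - a)
    · intro q hq
      rw [mem_coe, mem_filter] at hq ⊢
      obtain ⟨h1, h2⟩ := hcell q hq.2.2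
      refine ⟨mem_range.mpr (show q - a < 2 ^ j by omega), ?_⟩
      change (a + (q - a) * 1).Prime
      have h3 : a + (q - a) * 1 = q := by omega
      rw [h3]
      exact hs q hq.1
    · intro q hq q' hq' h
      rw [mem_coe, mem_filter] at hq hq'
      obtain ⟨h1, h2⟩ := hcell q hq.2.2
      obtain ⟨h1', h2'⟩ := hcell q' hq'.2.2
      change q - a = q' - a at h
      omega
  have hbt := Pool.Agent.H692R2.USS.t1_brun_titchmarsh a 1 (2 ^ j) h2j le_rfl
  have hm : (mm s τ j p : ℝ) ≤ 22 * (2 : ℝ) ^ j / (j * Real.log 2) := by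
    have h1 : (mm s τ j p : ℝ) ≤
        (((range (2 ^ j)).filter (fun k => (a + k * 1).Prime)).card : ℝ) := by exact_mod_cast hcard
    refine h1.trans (hbt.trans (le_of_eq ?_))
    push_cast
    rw [Real.log_pow, Nat.totient_one]
    norm_num
  have hj0 : (0 : ℝ) < j := by exact_mod_cast hj
  unfold rr
  rw [div_le_div_iff₀ (by positivity) hlog]
  calc (j : ℝ) * (mm s τ j p : ℝ) * Real.log 2
      ≤ (j : ℝ) * (22 * (2 : ℝ) ^ j / (j * Real.log 2)) * Real.log 2 := by gcongr
    _ = 22 * 2 ^ j := by field_simp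

end Pool.Agent.K6.H26.RD
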