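import Pool.Agent.K6.H26.RD.Stm

/-!
# Piece LEV (helper84): the sum over the levels
-/

set_option autoImplicit false

namespace Pool.Agent.K6.H26.RD

open Finset

namespace LEV

/-- the fourth root -/
noncomputable def c (i : ℕ) : ℝ := (i : ℝ) ^ (1 / 4 : ℝ)

theorem c_nonneg (i : ℕ) : 0 ≤ c i := Real.rpow_nonneg (Nat.cast_nonneg i) _

theorem c_pos {i : ℕ} (hi : 1 ≤ i) : 0 < c i :=
  Real.rpow_pos_of_pos (by exact_mod_cast hi) _

theorem root_pow (x : ℝ) (hx : 0 ≤ x) : (x ^ (1 / 4 : ℝ)) ^ 4 = x := by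
  rw [← Real.rpow_natCast, ← Real.rpow_mul hx]
  norm_num

theorem c_pow (i : ℕ) : c i ^ 4 = i := root_pow _ (Nat.cast_nonneg i)

theorem c_mono {i j : ℕ} (h : i ≤ j) : c i ≤ c j :=
  Real.rpow_le_rpow (Nat.cast_nonneg i) (by exact_mod_cast h) (by norm_num)

theorem sum_c (n : ℕ) : ∑ i ∈ Icc 1 n, 1 / c i ^ 3 ≤ 4 * c n := by
  induction n with
  | zero => simp [c]
  | succ n ih =>
    rw [sum_Icc_succ_top (by omega)]
    have ha := c_pos (i := n + 1) (by omega)
    have hb := c_nonneg n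
    have hab : c n ≤ c (n + 1) := c_mono (by omega)
    have h1 : c (n + 1) ^ 4 - c n ^ 4 = 1 := by rw [c_pow, c_pow]; push_cast; ring
    set a := c (n + 1)
    set b := c n
    have h2 : 1 ≤ (a - b) * (4 * a ^ 3) := by
      have e1 : a ^ 4 - b ^ 4 = (a - b) * (a ^ 3 + a ^ 2 * b + a * b ^ 2 + b ^ 3) := by ring
      rw [← h1, e1]
      apply mul_le_mul_of_nonneg_left _ (by linarith)
      have e2 : a ^ 2 * b ≤ a ^ 2 * a := by gcongr
      have e3 : a * b ^ 2 ≤ a * a ^ 2 := by gcongr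
      have e4 : b ^ 3 ≤ a ^ 3 := by gcongr
      nlinarith
    have h3 : 1 / a ^ 3 ≤ 4 * (a - b) := by
      rw [div_le_iff₀ (by positivity)]
      linarith
    linarith

theorem min_le {x y k : ℝ} (hx : 0 ≤ x) (hk : 0 ≤ k) (h1 : k ≤ y) (h2 : k ≤ x * y) :
    k ≤ x ^ (1 / 4 : ℝ) * y := by
  have hz := Real.rpow_nonneg hx (1 / 4 : ℝ)
  have h3 := root_pow x hx
  have hy : 0 ≤ y := hk.trans h1
  set z := x ^ (1 / 4 : ℝ)
  rcases le_total z 1 with h | h
  · refine h2.trans ?_
    apply mul_le_mul_of_nonneg_right _ hy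
    rw [← h3]
    calc z ^ 4 = z ^ 3 * z := by ring
      _ ≤ 1 * z := by
        apply mul_le_mul_of_nonneg_right _ hz
        exact pow_le_one₀ hz h
      _ = z := one_mul _
  · refine h1.trans ?_
    nlinarith

end LEV

open LEV in
theorem t_LEV : S_LEV := by
  classical
  intro s J B D hD hB hO
  set E : ℝ := D ^ (1 / 4 : ℝ) with hE
  have hE0 : 0 ≤ E := Real.rpow_nonneg hD.le _
  set X : ℕ → ℝ := fun p => ∑ j ∈ Icc 1 J, 1 / (j : ℝ) * (if p ∈ B j then 1 else 0) with hX
  set S : ℝ := ∑ j ∈ Icc 1 J, 1 / (j : ℝ) * ((B j).card : ℝ) with hS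
  have hcard : ∀ T : Finset ℕ, T ⊆ s → ∑ p ∈ s, (if p ∈ T then (1 : ℝ) else 0) = T.card := by
    intro T hT
    rw [sum_boole]
    congr 2
    ext p
    rw [mem_filter]
    exact ⟨fun h => h.2, fun h => ⟨hT h, h⟩⟩
  have hXS : ∑ p ∈ s, X p = S := by
    simp only [hX]
    rw [sum_comm]
    apply sum_congr rfl
    intro j _
    rw [← mul_sum, hcard _ (hB j)]
  have hX2 : ∑ p ∈ s, X p ^ 2 = ∑ i ∈ Icc 1 J, ∑ j ∈ Icc 1 J,
      1 / (i : ℝ) * (1 / (j : ℝ)) * ((B i ∩ B j).card : ℝ) := by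
    simp only [hX, sq, sum_mul_sum]
    rw [sum_comm]
    apply sum_congr rfl
    intro i _
    rw [sum_comm]
    apply sum_congr rfl
    intro j _
    rw [← hcard (B i ∩ B j) (inter_subset_left.trans (hB i)), mul_sum]
    apply sum_congr rfl
    intro p _
    by_cases h1 : p ∈ B i <;> by_cases h2 : p ∈ B j <;> simp [h1, h2]
  -- the bound for ordered pairs
  have hpair : ∀ j ∈ Icc 1 J, ∑ i ∈ Icc 1 J, (if i ≤ j then
      1 / (i : ℝ) * (1 / (j : ℝ)) * ((B i ∩ B j).card : ℝ) else 0) ≤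
      4 * E * (1 / (j : ℝ) * ((B j).card : ℝ)) := by
    intro j hj
    rw [mem_Icc] at hj
    have hj0 : (0 : ℝ) < j := by exact_mod_cast hj.1
    have hcj := c_pos hj.1
    rw [← sum_filter]
    have hfil : (Icc 1 J).filter (fun i => i ≤ j) = Icc 1 j := by
      ext i; rw [mem_filter, mem_Icc, mem_Icc]; omega
    rw [hfil]
    calc ∑ i ∈ Icc 1 j, 1 / (i : ℝ) * (1 / (j : ℝ)) * ((B i ∩ B j).card : ℝ)
        ≤ ∑ i ∈ Icc 1 j, (E / c j * (1 / (j : ℝ) * ((B j).card : ℝ))) * (1 / c i ^ 3) := by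
          apply sum_le_sum
          intro i hi
          rw [mem_Icc] at hi
          have hi0 : (0 : ℝ) < i := by exact_mod_cast hi.1
          have hci := c_pos hi.1
          have h1 := hO i j hi.1 hi.2 hj.2
          have h2 : ((B i ∩ B j).card : ℝ) ≤ ((B j).card : ℝ) := by
            exact_mod_cast card_le_card inter_subset_right
          have h3 := min_le (x := D * i / j) (by positivity) (Nat.cast_nonneg _) h2 h1
          have h4 : (D * i / j) ^ (1 / 4 : ℝ) = E * c i / c j := by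
            rw [Real.div_rpow (by positivity) hj0.le, Real.mul_rpow hD.le hi0.le]
            rfl
          rw [h4] at h3
          calc 1 / (i : ℝ) * (1 / (j : ℝ)) * ((B i ∩ B j).card : ℝ)
              ≤ 1 / (i : ℝ) * (1 / (j : ℝ)) * (E * c i / c j * ((B j).card : ℝ)) := by gcongr
            _ = (E / c j * (1 / (j : ℝ) * ((B j).card : ℝ))) * (c i / i) := by
              field_simp
            _ = (E / c j * (1 / (j : ℝ) * ((B j).card : ℝ))) * (1 / c i ^ 3) := by
              congr 1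
              rw [div_eq_div_iff hi0.ne' (by positivity), one_mul, ← c_pow i]
              ring
      _ = (E / c j * (1 / (j : ℝ) * ((B j).card : ℝ))) * ∑ i ∈ Icc 1 j, 1 / c i ^ 3 := by
          rw [mul_sum]
      _ ≤ (E / c j * (1 / (j : ℝ) * ((B j).card : ℝ))) * (4 * c j) := by
          apply mul_le_mul_of_nonneg_left (sum_c j)
          positivity
      _ = 4 * E * (1 / (j : ℝ) * ((B j).card : ℝ)) := by
          field_simp
  have hX2le : ∑ p ∈ s, X p ^ 2 ≤ 8 * E * S := by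
    rw [hX2]
    set f : ℕ → ℕ → ℝ := fun i j => 1 / (i : ℝ) * (1 / (j : ℝ)) * ((B i ∩ B j).card : ℝ) with hf
    have hf0 : ∀ i j, 0 ≤ f i j := fun i j => by simp only [hf]; positivity
    have hfs : ∀ i j, f i j = f j i := by
      intro i j
      simp only [hf]
      rw [inter_comm, mul_comm (1 / (i : ℝ))]
    have h1 : ∑ i ∈ Icc 1 J, ∑ j ∈ Icc 1 J, f i j ≤
        ∑ i ∈ Icc 1 J, ∑ j ∈ Icc 1 J, ((if i ≤ j then f i j else 0) +
          (if j ≤ i then f j i else 0)) := by
      apply sum_le_sum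
      intro i _
      apply sum_le_sum
      intro j _
      have := hf0 i j
      rcases le_total i j with h | h
      · rw [if_pos h]
        split_ifs
        · rw [← hfs i j]; linarith
        · linarith
      · rw [if_pos h, ← hfs i j]
        split_ifs
        · linarith
        · linarith
    have h2 : ∑ i ∈ Icc 1 J, ∑ j ∈ Icc 1 J, (if i ≤ j then f i j else 0) ≤ 4 * E * S := by
      rw [sum_comm, hS, mul_sum]
      exact sum_le_sum hpair
    have h3 : ∑ i ∈ Icc 1 J, ∑ j ∈ Icc 1 J, (if j ≤ i then f j i else 0) ≤ 4 * E * S := by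
      rw [hS, mul_sum]
      exact sum_le_sum hpair
    simp only [sum_add_distrib] at h1
    linarith
  have hS0 : 0 ≤ S := by
    rw [hS]
    apply sum_nonneg
    intro j _
    positivity
  have hcs : S ^ 2 ≤ (s.card : ℝ) * (8 * E * S) := by
    rw [← hXS]
    refine (sq_sum_le_card_mul_sum_sq (s := s) (f := X)).trans ?_
    rw [hXS]
    exact mul_le_mul_of_nonneg_left hX2le (Nat.cast_nonneg _)
  rcases hS0.eq_or_lt with h | h
  · rw [← h]
    positivity
  · have h4 : S * S ≤ (8 * E * (s.card : ℝ)) * S := by nlinarith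
    exact le_of_mul_le_mul_right h4 h

end Pool.Agent.K6.H26.RD
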