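import Pool.Agent.K6.H26.RD.Stm

set_option autoImplicit false

/-! # OVL: overlaps of the level sets (piece by helper3) -/

namespace Pool.Agent.K6.H26.RD

open Finset

namespace OVL

/-- in a cell `mm` is the number of elements minus one -/
theorem mm_cell (s : Finset ℕ) (τ j c p : ℕ) (hp : p ∈ s) (hc : (p + τ) / 2 ^ j = c) :
    (mm s τ j p : ℝ) = ((s.filter (fun q => (q + τ) / 2 ^ j = c)).card : ℝ) - 1 := by
  have h1 : s.filter (fun q => q ≠ p ∧ (q + τ) / 2 ^ j = (p + τ) / 2 ^ j) =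
      (s.filter (fun q => (q + τ) / 2 ^ j = c)).erase p := by
    ext q
    simp only [mem_filter, mem_erase, hc]
    tauto
  have hmem : p ∈ s.filter (fun q => (q + τ) / 2 ^ j = c) := mem_filter.2 ⟨hp, hc⟩
  have h2 := card_erase_add_one hmem
  rw [mm, h1]
  have h3 : (((s.filter (fun q => (q + τ) / 2 ^ j = c)).erase p).card : ℝ) + 1 =
      ((s.filter (fun q => (q + τ) / 2 ^ j = c)).card : ℝ) := by exact_mod_cast h2
  linarith

/-- one cell -/
theorem cell (s : Finset ℕ) (τ : ℕ) (C lam : ℝ) (hC : 0 < C) (hl : 0 < lam)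
    (hP : PairHyp s τ C) (i j c : ℕ) (hi : 1 ≤ i) (hij : i ≤ j) :
    ((s.filter (fun p => (lam < rr s τ i p ∧ lam < rr s τ j p) ∧ (p + τ) / 2 ^ j = c)).card : ℝ) ≤
      C / lam ^ 2 * i / j *
        ((s.filter (fun p => lam < rr s τ j p ∧ (p + τ) / 2 ^ j = c)).card : ℝ) := by
  have hj : 1 ≤ j := hi.trans hij
  have hj0 : (0 : ℝ) < j := by exact_mod_cast hj
  have hi0 : (0 : ℝ) < i := by exact_mod_cast hi
  by_cases hne : (s.filter (fun p => lam < rr s τ j p ∧ (p + τ) / 2 ^ j = c)).Nonempty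
  · obtain ⟨p₀, hp₀⟩ := hne
    rw [mem_filter] at hp₀
    obtain ⟨hp₀s, hp₀l, hp₀c⟩ := hp₀
    set I := s.filter (fun q => (q + τ) / 2 ^ j = c) with hI
    have hrr : ∀ p ∈ I, rr s τ j p = (j : ℝ) * ((I.card : ℝ) - 1) / 2 ^ j := by
      intro p hp
      rw [hI, mem_filter] at hp
      rw [rr, mm_cell s τ j c p hp.1 hp.2]
    have hlam : lam < (j : ℝ) * ((I.card : ℝ) - 1) / 2 ^ j := by
      rw [← hrr p₀ (mem_filter.2 ⟨hp₀s, hp₀c⟩)]; exact hp₀l
    have hB : s.filter (fun p => lam < rr s τ j p ∧ (p + τ) / 2 ^ j = c) = I := by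
      ext p
      rw [hI]
      simp only [mem_filter]
      constructor
      · rintro ⟨h1, _, h3⟩; exact ⟨h1, h3⟩
      · rintro ⟨h1, h3⟩
        refine ⟨h1, ?_, h3⟩
        rw [hrr p (mem_filter.2 ⟨h1, h3⟩)]
        exact hlam
    rw [hB]
    set A := s.filter (fun p => (lam < rr s τ i p ∧ lam < rr s τ j p) ∧ (p + τ) / 2 ^ j = c) with hA
    have hAI : A ⊆ I := by
      intro p hp
      rw [hA, mem_filter] at hp
      exact mem_filter.2 ⟨hp.1, hp.2.2⟩
    have hnn : ∀ p, 0 ≤ rr s τ i p := by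
      intro p; unfold rr; positivity
    have h1 : (A.card : ℝ) * lam ≤ ∑ p ∈ I, rr s τ i p := by
      calc (A.card : ℝ) * lam = ∑ p ∈ A, lam := by rw [sum_const, nsmul_eq_mul]
        _ ≤ ∑ p ∈ A, rr s τ i p := by
            apply sum_le_sum
            intro p hp
            rw [hA, mem_filter] at hp
            exact hp.2.1.1.le
        _ ≤ ∑ p ∈ I, rr s τ i p := sum_le_sum_of_subset_of_nonneg hAI (fun p _ _ => hnn p)
    have h2 : ∑ p ∈ I, rr s τ i p ≤ C * i * (2 ^ j / (j : ℝ) ^ 2) := by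
      have h3 := hP i j c hi hij
      rw [← hI] at h3
      have h4 : ∑ p ∈ I, rr s τ i p = (i : ℝ) / 2 ^ i * ∑ p ∈ I, (mm s τ i p : ℝ) := by
        rw [mul_sum]
        apply sum_congr rfl
        intro p _
        rw [rr]; ring
      rw [h4]
      calc (i : ℝ) / 2 ^ i * ∑ p ∈ I, (mm s τ i p : ℝ)
          ≤ (i : ℝ) / 2 ^ i * (C * 2 ^ i * 2 ^ j / (j : ℝ) ^ 2) :=
            mul_le_mul_of_nonneg_left h3 (by positivity)
        _ = C * i * (2 ^ j / (j : ℝ) ^ 2) := by
            have : (2 : ℝ) ^ i ≠ 0 := by positivity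
            field_simp
    have h5 : lam * (2 ^ j / (j : ℝ)) ≤ I.card := by
      have h6 : lam * 2 ^ j < (j : ℝ) * ((I.card : ℝ) - 1) := by
        rwa [lt_div_iff₀ (by positivity)] at hlam
      rw [mul_div_assoc', div_le_iff₀ hj0]
      nlinarith
    have h7 : (A.card : ℝ) * lam ≤ C * i / j * (2 ^ j / (j : ℝ)) := by
      refine (h1.trans h2).trans (le_of_eq ?_)
      field_simp
    have h8 : (A.card : ℝ) * lam ^ 2 ≤ C * i / j * I.card := by
      calc (A.card : ℝ) * lam ^ 2 = lam * ((A.card : ℝ) * lam) := by ring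
        _ ≤ lam * (C * i / j * (2 ^ j / (j : ℝ))) := mul_le_mul_of_nonneg_left h7 hl.le
        _ = C * i / j * (lam * (2 ^ j / (j : ℝ))) := by ring
        _ ≤ C * i / j * I.card := mul_le_mul_of_nonneg_left h5 (by positivity)
    have h9 : C / lam ^ 2 * i / j * (I.card : ℝ) = (C * i / j * I.card) / lam ^ 2 := by
      field_simp
    rw [h9, le_div_iff₀ (by positivity)]
    exact h8
  · rw [not_nonempty_iff_eq_empty] at hne
    have h1 : s.filter (fun p => (lam < rr s τ i p ∧ lam < rr s τ j p) ∧ (p + τ) / 2 ^ j = c) = ∅ := by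
      rw [← subset_empty, ← hne]
      intro p hp
      rw [mem_filter] at hp ⊢
      exact ⟨hp.1, hp.2.1.2, hp.2.2⟩
    rw [h1, hne]
    simp

/-- decomposition into cells -/
theorem split (s : Finset ℕ) (τ j : ℕ) (P : ℕ → Prop) [DecidablePred P] :
    ((s.filter P).card : ℝ) = ∑ c ∈ s.image (fun p => (p + τ) / 2 ^ j),
      ((s.filter (fun p => P p ∧ (p + τ) / 2 ^ j = c)).card : ℝ) := by
  have h : (s.filter P).card = ∑ c ∈ s.image (fun p => (p + τ) / 2 ^ j),
      ((s.filter P).filter (fun p => (p + τ) / 2 ^ j = c)).card :=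
    card_eq_sum_card_fiberwise (fun p hp =>
      mem_image_of_mem _ (mem_filter.1 hp).1)
  rw [h]
  push_cast
  apply sum_congr rfl
  intro c _
  rw [filter_filter]

end OVL

theorem t_OVL : S_OVL := by
  intro s τ C lam hC hl hP i j hi hij
  rw [OVL.split s τ j (fun p => lam < rr s τ i p ∧ lam < rr s τ j p),
    OVL.split s τ j (fun p => lam < rr s τ j p), mul_sum]
  exact sum_le_sum (fun c _ => OVL.cell s τ C lam hC hl hP i j c hi hij)

end Pool.Agent.K6.H26.RD
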