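import Pool.Agent.K6.H26.RD.Stm
import Pool.Agent.H357R2.SI.PairFinal

set_option autoImplicit false

/-! # The pair bound for primes in the cells -/

namespace Pool.Agent.K6.H26.RD

open Finset
open Pool.Agent.H357R2.SI

theorem cell_Ioc {τ j c p : ℕ} (hp : 1 ≤ p) (h : (p + τ) / 2 ^ j = c) :
    p ∈ Ioc (c * 2 ^ j - τ - 1) (c * 2 ^ j - τ - 1 + 2 ^ j) := by
  have h2 : 0 < 2 ^ j := by positivity
  have h3 : c * 2 ^ j ≤ p + τ := by rw [← h]; exact Nat.div_mul_le_self _ _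
  have h4 : p + τ < c * 2 ^ j + 2 ^ j := by
    rw [← h]
    have := Nat.lt_div_mul_add (a := p + τ) h2
    omega
  rw [mem_Ioc]
  omega

/-- the pair count in an interval -/
noncomputable def NN (a u h : ℕ) : ℕ := ((Ioc a (a + u)).filter (fun n => n.Prime ∧ (n + h).Prime)).card

theorem same_cell {τ i j p q : ℕ} (hij : i ≤ j) (h : (q + τ) / 2 ^ i = (p + τ) / 2 ^ i) :
    (q + τ) / 2 ^ j = (p + τ) / 2 ^ j := by
  have e : 2 ^ j = 2 ^ i * 2 ^ (j - i) := by rw [← pow_add]; congr 1; omega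
  rw [e, ← Nat.div_div_eq_div_mul, ← Nat.div_div_eq_div_mul, h]

theorem mm_le (s : Finset ℕ) (hs : ∀ p ∈ s, p.Prime) (τ i j c p : ℕ) (hij : i ≤ j)
    (hp : p ∈ s.filter (fun p => (p + τ) / 2 ^ j = c)) :
    mm s τ i p ≤ ((Icc 1 (2 ^ i)).filter (fun h => (p + h).Prime)).card +
      ((Icc 1 (2 ^ i)).filter (fun h => h ≤ p ∧ p - h ∈ s.filter (fun p => (p + τ) / 2 ^ j = c))).card := by
  classical
  rw [mem_filter] at hp
  have h2 : 0 < 2 ^ i := by positivity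
  have key : ∀ q : ℕ, (q + τ) / 2 ^ i = (p + τ) / 2 ^ i → q < p + 2 ^ i ∧ p < q + 2 ^ i := by
    intro q hq
    have e1 := Nat.div_mul_le_self (q + τ) (2 ^ i)
    have e2 := Nat.lt_div_mul_add (a := q + τ) h2
    have e3 := Nat.div_mul_le_self (p + τ) (2 ^ i)
    have e4 := Nat.lt_div_mul_add (a := p + τ) h2
    rw [hq] at e1 e2
    omega
  unfold mm
  have hsplit : s.filter (fun q => q ≠ p ∧ (q + τ) / 2 ^ i = (p + τ) / 2 ^ i) ⊆
      s.filter (fun q => p < q ∧ (q + τ) / 2 ^ i = (p + τ) / 2 ^ i) ∪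
      s.filter (fun q => q < p ∧ (q + τ) / 2 ^ i = (p + τ) / 2 ^ i) := by
    intro q hq
    rw [mem_filter] at hq
    rw [mem_union, mem_filter, mem_filter]
    rcases lt_or_gt_of_ne hq.2.1 with h | h
    · right; exact ⟨hq.1, h, hq.2.2⟩
    · left; exact ⟨hq.1, h, hq.2.2⟩
  refine (card_le_card hsplit).trans ((card_union_le _ _).trans (add_le_add ?_ ?_))
  · apply Finset.card_le_card_of_injOn (fun q => q - p)
    · intro q hq
      rw [Finset.mem_coe, mem_filter] at hq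
      rw [Finset.mem_coe, mem_filter, mem_Icc]
      have hk := key q hq.2.2
      have e : p + (q - p) = q := by omega
      show (1 ≤ q - p ∧ q - p ≤ 2 ^ i) ∧ (p + (q - p)).Prime
      rw [e]
      exact ⟨⟨by omega, by omega⟩, hs q hq.1⟩
    · intro q hq q' hq' e
      rw [Finset.mem_coe, mem_filter] at hq hq'
      have e' : q - p = q' - p := e
      omega
  · apply Finset.card_le_card_of_injOn (fun q => p - q)
    · intro q hq
      rw [Finset.mem_coe, mem_filter] at hq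
      rw [Finset.mem_coe, mem_filter, mem_Icc]
      have hk := key q hq.2.2
      have e : p - (p - q) = q := by omega
      show (1 ≤ p - q ∧ p - q ≤ 2 ^ i) ∧ p - q ≤ p ∧ p - (p - q) ∈ s.filter (fun p => (p + τ) / 2 ^ j = c)
      rw [e, mem_filter]
      refine ⟨⟨by omega, by omega⟩, by omega, hq.1, ?_⟩
      rw [same_cell hij hq.2.2]
      exact hp.2
    · intro q hq q' hq' e
      rw [Finset.mem_coe, mem_filter] at hq hq'
      have e' : p - q = p - q' := e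
      omega

theorem sum_mm_le (s : Finset ℕ) (hs : ∀ p ∈ s, p.Prime) (τ i j c : ℕ) (hij : i ≤ j) :
    ∑ p ∈ s.filter (fun p => (p + τ) / 2 ^ j = c), mm s τ i p ≤
      2 * ∑ h ∈ Icc 1 (2 ^ i), NN (c * 2 ^ j - τ - 1) (2 ^ j) h := by
  classical
  obtain ⟨T, hT⟩ : ∃ T : Finset ℕ, T = s.filter (fun p => (p + τ) / 2 ^ j = c) := ⟨_, rfl⟩
  have hTp : ∀ p ∈ T, p.Prime ∧ p ∈ Ioc (c * 2 ^ j - τ - 1) (c * 2 ^ j - τ - 1 + 2 ^ j) := by
    intro p hp
    rw [hT, mem_filter] at hp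
    exact ⟨hs p hp.1, cell_Ioc (hs p hp.1).one_lt.le hp.2⟩
  have h1 := Finset.sum_le_sum (fun p hp => mm_le s hs τ i j c p hij hp)
  rw [← hT] at h1 ⊢
  refine h1.trans ?_
  rw [Finset.sum_add_distrib, two_mul]
  apply add_le_add
  · have e : ∀ p ∈ T, ((Icc 1 (2 ^ i)).filter (fun h => (p + h).Prime)).card =
        ∑ h ∈ Icc 1 (2 ^ i), if (p + h).Prime then 1 else 0 := fun p _ => by
      rw [Finset.card_filter]
    rw [Finset.sum_congr rfl e, Finset.sum_comm]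
    apply Finset.sum_le_sum
    intro h _
    rw [← Finset.card_filter]
    unfold NN
    apply card_le_card
    intro p hp
    rw [mem_filter] at hp ⊢
    exact ⟨(hTp p hp.1).2, (hTp p hp.1).1, hp.2⟩
  · have e : ∀ p ∈ T, ((Icc 1 (2 ^ i)).filter (fun h => h ≤ p ∧ p - h ∈ T)).card =
        ∑ h ∈ Icc 1 (2 ^ i), if h ≤ p ∧ p - h ∈ T then 1 else 0 := fun p _ => by
      rw [Finset.card_filter]
    rw [Finset.sum_congr rfl e, Finset.sum_comm]
    apply Finset.sum_le_sum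
    intro h _
    rw [← Finset.card_filter]
    unfold NN
    apply Finset.card_le_card_of_injOn (fun p => p - h)
    · intro p hp
      rw [Finset.mem_coe, mem_filter] at hp
      rw [Finset.mem_coe, mem_filter]
      have h3 := hTp _ hp.2.2
      refine ⟨h3.2, h3.1, ?_⟩
      show (p - h + h).Prime
      have e : p - h + h = p := by omega
      rw [e]
      exact (hTp p hp.1).1
    · intro p hp p' hp' e
      rw [Finset.mem_coe, mem_filter] at hp hp'
      have e' : p - h = p' - h := e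
      omega

theorem t_PRS : S_PRS := by
  obtain ⟨C, hC, u0, hpair⟩ := pair_sieve
  obtain ⟨C', hC', hsg⟩ := sum_sg_sq
  have hC0 : 0 < C := by linarith
  have hC'0 : 0 < C' := by linarith
  refine ⟨8 * C * C' + 2 * (u0 : ℝ) ^ 2, by positivity, fun s hs τ i j c hi hij => ?_⟩
  have hj : 1 ≤ j := hi.trans hij
  have hj0 : (0 : ℝ) < j := by exact_mod_cast hj
  have h0 : ∑ p ∈ s.filter (fun p => (p + τ) / 2 ^ j = c), (mm s τ i p : ℝ) ≤
      2 * ∑ h ∈ Icc 1 (2 ^ i), (NN (c * 2 ^ j - τ - 1) (2 ^ j) h : ℝ) := by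
    exact_mod_cast sum_mm_le s hs τ i j c hij
  refine h0.trans ?_
  by_cases hu : u0 ≤ 2 ^ j
  · have h1 : ∀ h ∈ Icc 1 (2 ^ i), (NN (c * 2 ^ j - τ - 1) (2 ^ j) h : ℝ) ≤
        4 * C * 2 ^ j / (j : ℝ) ^ 2 * sg h ^ 2 := by
      intro h hh
      rw [mem_Icc] at hh
      have h2 := hpair h (c * 2 ^ j - τ - 1) (2 ^ j) (by omega) hu
      unfold NN
      refine h2.trans ?_
      push_cast
      rw [Real.log_pow]
      have hl := Real.log_two_gt_d9
      have h3 : 1 / 4 * (j : ℝ) ^ 2 ≤ ((j : ℝ) * Real.log 2) ^ 2 := by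
        have : 1 / 2 * (j : ℝ) ≤ (j : ℝ) * Real.log 2 := by nlinarith
        have h4 := pow_le_pow_left₀ (by positivity) this 2
        nlinarith
      have h5 : C * sg h ^ 2 * 2 ^ j / ((j : ℝ) * Real.log 2) ^ 2 ≤
          C * sg h ^ 2 * 2 ^ j / (1 / 4 * (j : ℝ) ^ 2) :=
        div_le_div_of_nonneg_left (by positivity) (by positivity) h3
      refine h5.trans (le_of_eq ?_)
      field_simp
    have h6 := Finset.sum_le_sum h1
    rw [← Finset.mul_sum] at h6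
    have h7 := hsg (2 ^ i)
    push_cast at h7
    have h8 : 4 * C * 2 ^ j / (j : ℝ) ^ 2 * ∑ h ∈ Icc 1 (2 ^ i), sg h ^ 2 ≤
        4 * C * 2 ^ j / (j : ℝ) ^ 2 * (C' * 2 ^ i) := mul_le_mul_of_nonneg_left h7 (by positivity)
    have h9 : 2 * (4 * C * 2 ^ j / (j : ℝ) ^ 2 * (C' * 2 ^ i)) = 8 * C * C' * 2 ^ i * 2 ^ j / (j : ℝ) ^ 2 := by
      ring
    have h10 : 8 * C * C' * 2 ^ i * 2 ^ j / (j : ℝ) ^ 2 ≤
        (8 * C * C' + 2 * (u0 : ℝ) ^ 2) * 2 ^ i * 2 ^ j / (j : ℝ) ^ 2 := by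
      apply div_le_div_of_nonneg_right _ (by positivity)
      have : (0 : ℝ) ≤ 2 * (u0 : ℝ) ^ 2 * 2 ^ i * 2 ^ j := by positivity
      nlinarith
    linarith
  · have hju : (j : ℝ) ≤ u0 := by
      have h1 : j < 2 ^ j := Nat.lt_two_pow_self
      have : j ≤ u0 := by omega
      exact_mod_cast this
    have h1 : ∀ h ∈ Icc 1 (2 ^ i), (NN (c * 2 ^ j - τ - 1) (2 ^ j) h : ℝ) ≤ 2 ^ j := by
      intro h _
      unfold NN
      have h2 := Finset.card_filter_le (Ioc (c * 2 ^ j - τ - 1) (c * 2 ^ j - τ - 1 + 2 ^ j))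
        (fun n => n.Prime ∧ (n + h).Prime)
      rw [Nat.card_Ioc, Nat.add_sub_cancel_left] at h2
      exact_mod_cast h2
    have h6 := Finset.sum_le_sum h1
    rw [Finset.sum_const, Nat.card_Icc, nsmul_eq_mul] at h6
    have h7 : ((2 ^ i + 1 - 1 : ℕ) : ℝ) = 2 ^ i := by
      rw [Nat.add_sub_cancel]; push_cast; ring
    rw [h7] at h6
    have h8 : 2 * ((2 : ℝ) ^ i * 2 ^ j) ≤ (8 * C * C' + 2 * (u0 : ℝ) ^ 2) * 2 ^ i * 2 ^ j / (j : ℝ) ^ 2 := by
      rw [le_div_iff₀ (by positivity)]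
      have h9 : (j : ℝ) ^ 2 ≤ (u0 : ℝ) ^ 2 := pow_le_pow_left₀ hj0.le hju 2
      have h10 : (0 : ℝ) ≤ 2 ^ i * 2 ^ j := by positivity
      have h11 : (2 : ℝ) ^ i * 2 ^ j * (j : ℝ) ^ 2 ≤ 2 ^ i * 2 ^ j * (u0 : ℝ) ^ 2 :=
        mul_le_mul_of_nonneg_left h9 h10
      have h12 : (0 : ℝ) ≤ 8 * C * C' * (2 ^ i * 2 ^ j) := by positivity
      nlinarith
    linarith

end Pool.Agent.K6.H26.RD
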