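import Pool.Agent.K6.H26.RD.Stm

/-! # Piece SUM (helper78): from the level sets to the function -/

set_option autoImplicit false

namespace Pool.Agent.K6.H26.RD

open Finset

namespace SUM

/-- the layer cake inequality -/
lemma layer (C x : ℝ) (hC : 0 < C) (h0 : 0 ≤ x) (h1 : x ≤ C) (K : ℕ) :
    x ≤ C * (1 / 4) ^ K + ∑ k ∈ range K, C * (1 / 4) ^ k *
      (if C * (1 / 4) ^ (k + 1) < x then 1 else 0) := by
  induction K with
  | zero => simpa using h1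
  | succ K ih =>
    rw [Finset.sum_range_succ]
    have hs : 0 ≤ ∑ k ∈ range K, C * (1 / 4 : ℝ) ^ k *
        (if C * (1 / 4) ^ (k + 1) < x then 1 else 0) := by
      refine Finset.sum_nonneg fun k _ => ?_
      split_ifs <;> positivity
    have hp : 0 < C * (1 / 4 : ℝ) ^ (K + 1) := by positivity
    by_cases h : C * (1 / 4) ^ (K + 1) < x
    · rw [if_pos h, mul_one]
      linarith
    · rw [if_neg h, mul_zero]
      push Not at h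
      linarith

/-- the value of `λ ^ (-1/2)` -/
lemma rpow_val (C : ℝ) (hC : 0 < C) (k : ℕ) :
    C * (1 / 4) ^ k * (C * (1 / 4) ^ (k + 1)) ^ (-(1 / 2) : ℝ) =
      2 * C ^ (1 / 2 : ℝ) * (1 / 2) ^ k := by
  have hy : (0 : ℝ) < 2 ^ (k + 1) := by positivity
  have h1 : ((1 / 4 : ℝ) ^ (k + 1)) ^ (-(1 / 2) : ℝ) = 2 ^ (k + 1) := by
    have e : (1 / 4 : ℝ) ^ (k + 1) = (((2 : ℝ) ^ (k + 1)) ^ 2)⁻¹ := by
      rw [← pow_mul, mul_comm (k + 1) 2, pow_mul, ← inv_pow]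
      norm_num
    rw [e, Real.inv_rpow (by positivity), Real.rpow_neg (by positivity), inv_inv,
      ← Real.sqrt_eq_rpow, Real.sqrt_sq hy.le]
  have h2 : C ^ (-(1 / 2) : ℝ) = (C ^ (1 / 2 : ℝ))⁻¹ := Real.rpow_neg hC.le _
  have h3 : C ^ (1 / 2 : ℝ) * C ^ (1 / 2 : ℝ) = C := by
    rw [← Real.sqrt_eq_rpow]
    exact Real.mul_self_sqrt hC.le
  have h4 : 0 < C ^ (1 / 2 : ℝ) := Real.rpow_pos_of_pos hC _
  have h5 : C * (C ^ (1 / 2 : ℝ))⁻¹ = C ^ (1 / 2 : ℝ) := by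
    rw [mul_inv_eq_iff_eq_mul₀ h4.ne']
    exact h3.symm
  have h6 : (1 / 4 : ℝ) ^ k * 2 ^ (k + 1) = 2 * (1 / 2) ^ k := by
    rw [pow_succ, ← mul_assoc, ← mul_pow]
    norm_num
    ring
  rw [Real.mul_rpow hC.le (by positivity), h1, h2]
  calc C * (1 / 4) ^ k * ((C ^ (1 / 2 : ℝ))⁻¹ * 2 ^ (k + 1)) =
        (C * (C ^ (1 / 2 : ℝ))⁻¹) * ((1 / 4) ^ k * 2 ^ (k + 1)) := by ring
    _ = 2 * C ^ (1 / 2 : ℝ) * (1 / 2) ^ k := by rw [h5, h6]; ring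

lemma geom (J : ℕ) : ∑ k ∈ range J, (1 / 2 : ℝ) ^ k ≤ 2 := by
  have h : ∀ J : ℕ, ∑ k ∈ range J, (1 / 2 : ℝ) ^ k = 2 - 2 * (1 / 2) ^ J := by
    intro J
    induction J with
    | zero => simp
    | succ J ih => rw [Finset.sum_range_succ, ih, pow_succ]; ring
  rw [h]
  have : (0 : ℝ) < 2 * (1 / 2) ^ J := by positivity
  linarith

lemma harm (J : ℕ) : ∑ j ∈ Icc 1 J, 1 / (j : ℝ) ≤ J := by
  calc ∑ j ∈ Icc 1 J, 1 / (j : ℝ) ≤ ∑ _j ∈ Icc 1 J, (1 : ℝ) := by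
        refine Finset.sum_le_sum fun j hj => ?_
        have h1 : 1 ≤ j := (Finset.mem_Icc.1 hj).1
        have h2 : (1 : ℝ) ≤ j := by exact_mod_cast h1
        rw [div_le_one (by linarith)]
        exact h2
    _ = J := by simp

lemma small (J : ℕ) : (1 / 4 : ℝ) ^ J * J ≤ 1 := by
  have h1 : J < 4 ^ J := Nat.lt_pow_self (by norm_num)
  have h2 : (J : ℝ) ≤ 4 ^ J := by exact_mod_cast h1.le
  calc (1 / 4 : ℝ) ^ J * J ≤ (1 / 4 : ℝ) ^ J * 4 ^ J :=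
        mul_le_mul_of_nonneg_left h2 (by positivity)
    _ = 1 := by rw [← mul_pow]; norm_num

end SUM

open SUM in
theorem t_SUM : S_SUM := by
  intro s J r C₁ C₂ hC1 hC2 hr0 hr1 hlam
  have hw : 0 < C₁ ^ (1 / 2 : ℝ) := Real.rpow_pos_of_pos hC1 _
  have hcard : (0 : ℝ) ≤ (s.card : ℝ) := Nat.cast_nonneg _
  have h1 : ∑ p ∈ s, ∑ j ∈ Icc 1 J, 1 / (j : ℝ) * r j p ≤
      ∑ p ∈ s, ∑ j ∈ Icc 1 J, 1 / (j : ℝ) * (C₁ * (1 / 4) ^ J + ∑ k ∈ range J,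
        C₁ * (1 / 4) ^ k * (if C₁ * (1 / 4) ^ (k + 1) < r j p then 1 else 0)) := by
    refine Finset.sum_le_sum fun p hp => Finset.sum_le_sum fun j hj => ?_
    exact mul_le_mul_of_nonneg_left (layer C₁ (r j p) hC1 (hr0 j p) (hr1 j hj p hp) J)
      (by positivity)
  have h2 : ∑ p ∈ s, ∑ j ∈ Icc 1 J, 1 / (j : ℝ) * (C₁ * (1 / 4) ^ J + ∑ k ∈ range J,
        C₁ * (1 / 4) ^ k * (if C₁ * (1 / 4) ^ (k + 1) < r j p then 1 else 0)) =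
      C₁ * ((1 / 4) ^ J * ∑ j ∈ Icc 1 J, 1 / (j : ℝ)) * (s.card : ℝ) +
      ∑ k ∈ range J, C₁ * (1 / 4) ^ k * ∑ j ∈ Icc 1 J, 1 / (j : ℝ) *
        ((s.filter (fun p => C₁ * (1 / 4) ^ (k + 1) < r j p)).card : ℝ) := by
    have e1 : ∀ p j : ℕ, 1 / (j : ℝ) * (C₁ * (1 / 4) ^ J + ∑ k ∈ range J,
        C₁ * (1 / 4) ^ k * (if C₁ * (1 / 4) ^ (k + 1) < r j p then 1 else 0)) =
        C₁ * ((1 / 4) ^ J * (1 / (j : ℝ))) + ∑ k ∈ range J,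
          C₁ * (1 / 4) ^ k * (1 / (j : ℝ) * (if C₁ * (1 / 4) ^ (k + 1) < r j p then 1 else 0)) := by
      intro p j
      rw [mul_add, Finset.mul_sum]
      congr 1
      · ring
      · exact Finset.sum_congr rfl fun k _ => by ring
    simp only [e1, Finset.sum_add_distrib]
    congr 1
    · rw [Finset.sum_const, nsmul_eq_mul, ← Finset.mul_sum, ← Finset.mul_sum]
      ring
    · have e2 : ∀ p : ℕ, ∑ j ∈ Icc 1 J, ∑ k ∈ range J,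
          C₁ * (1 / 4) ^ k * (1 / (j : ℝ) * (if C₁ * (1 / 4) ^ (k + 1) < r j p then 1 else 0)) =
          ∑ k ∈ range J, ∑ j ∈ Icc 1 J,
          C₁ * (1 / 4) ^ k * (1 / (j : ℝ) * (if C₁ * (1 / 4) ^ (k + 1) < r j p then 1 else 0)) :=
        fun p => Finset.sum_comm
      simp only [e2]
      rw [Finset.sum_comm]
      refine Finset.sum_congr rfl fun k _ => ?_
      rw [Finset.sum_comm, Finset.mul_sum]
      refine Finset.sum_congr rfl fun j _ => ?_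
      rw [← Finset.mul_sum, ← Finset.mul_sum, Finset.sum_boole]
  have h3 : C₁ * ((1 / 4) ^ J * ∑ j ∈ Icc 1 J, 1 / (j : ℝ)) * (s.card : ℝ) ≤
      C₁ * (s.card : ℝ) := by
    have h4 : (1 / 4 : ℝ) ^ J * ∑ j ∈ Icc 1 J, 1 / (j : ℝ) ≤ 1 :=
      (mul_le_mul_of_nonneg_left (harm J) (by positivity)).trans (small J)
    have h5 : C₁ * ((1 / 4 : ℝ) ^ J * ∑ j ∈ Icc 1 J, 1 / (j : ℝ)) ≤ C₁ :=
      (mul_le_mul_of_nonneg_left h4 hC1.le).trans (le_of_eq (mul_one _))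
    exact mul_le_mul_of_nonneg_right h5 hcard
  have h6 : ∑ k ∈ range J, C₁ * (1 / 4) ^ k * ∑ j ∈ Icc 1 J, 1 / (j : ℝ) *
        ((s.filter (fun p => C₁ * (1 / 4) ^ (k + 1) < r j p)).card : ℝ) ≤
      4 * C₂ * C₁ ^ (1 / 2 : ℝ) * (s.card : ℝ) := by
    calc ∑ k ∈ range J, C₁ * (1 / 4) ^ k * ∑ j ∈ Icc 1 J, 1 / (j : ℝ) *
          ((s.filter (fun p => C₁ * (1 / 4) ^ (k + 1) < r j p)).card : ℝ) ≤
          ∑ k ∈ range J, (2 * C₂ * C₁ ^ (1 / 2 : ℝ) * (s.card : ℝ)) * (1 / 2) ^ k := by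
          refine Finset.sum_le_sum fun k _ => ?_
          have h7 := hlam (C₁ * (1 / 4) ^ (k + 1)) (by positivity)
          have h8 := mul_le_mul_of_nonneg_left h7
            (show 0 ≤ C₁ * (1 / 4 : ℝ) ^ k by positivity)
          refine h8.trans (le_of_eq ?_)
          calc C₁ * (1 / 4) ^ k * (C₂ * (C₁ * (1 / 4) ^ (k + 1)) ^ (-(1 / 2) : ℝ) *
                (s.card : ℝ)) = C₂ * (s.card : ℝ) * (C₁ * (1 / 4) ^ k *
                (C₁ * (1 / 4) ^ (k + 1)) ^ (-(1 / 2) : ℝ)) := by ring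
            _ = (2 * C₂ * C₁ ^ (1 / 2 : ℝ) * (s.card : ℝ)) * (1 / 2) ^ k := by
                rw [rpow_val C₁ hC1 k]
                ring
      _ = (2 * C₂ * C₁ ^ (1 / 2 : ℝ) * (s.card : ℝ)) * ∑ k ∈ range J, (1 / 2 : ℝ) ^ k := by
          rw [Finset.mul_sum]
      _ ≤ (2 * C₂ * C₁ ^ (1 / 2 : ℝ) * (s.card : ℝ)) * 2 :=
          mul_le_mul_of_nonneg_left (geom J) (by positivity)
      _ = 4 * C₂ * C₁ ^ (1 / 2 : ℝ) * (s.card : ℝ) := by ring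
  rw [h2] at h1
  calc ∑ p ∈ s, ∑ j ∈ Icc 1 J, 1 / (j : ℝ) * r j p ≤
        C₁ * (s.card : ℝ) + 4 * C₂ * C₁ ^ (1 / 2 : ℝ) * (s.card : ℝ) :=
        h1.trans (add_le_add h3 h6)
    _ = (C₁ + 4 * C₂ * C₁ ^ (1 / 2 : ℝ)) * (s.card : ℝ) := by ring

end Pool.Agent.K6.H26.RD
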