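import Mathlib

set_option autoImplicit false

/-! # Reciprocal differences of primes: statements -/

namespace Pool.Agent.K6.H26.RD

open Finset

/-- the number of the other elements of `s` in the cell of `p` at level `j` (grid shifted by `τ`) -/
def mm (s : Finset ℕ) (τ j p : ℕ) : ℕ :=
  (s.filter (fun q => q ≠ p ∧ (q + τ) / 2 ^ j = (p + τ) / 2 ^ j)).card

/-- the normalised density -/
noncomputable def rr (s : Finset ℕ) (τ j p : ℕ) : ℝ := (j : ℝ) * (mm s τ j p : ℝ) / 2 ^ j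

/-- the pair bound for the cells -/
def PairHyp (s : Finset ℕ) (τ : ℕ) (C : ℝ) : Prop :=
  ∀ i j c : ℕ, 1 ≤ i → i ≤ j →
    ∑ p ∈ s.filter (fun p => (p + τ) / 2 ^ j = c), (mm s τ i p : ℝ) ≤ C * 2 ^ i * 2 ^ j / (j : ℝ) ^ 2

/-- OVL: overlaps of the level sets -/
def S_OVL : Prop := ∀ (s : Finset ℕ) (τ : ℕ) (C lam : ℝ), 0 < C → 0 < lam → PairHyp s τ C →
  ∀ i j : ℕ, 1 ≤ i → i ≤ j →
    ((s.filter (fun p => lam < rr s τ i p ∧ lam < rr s τ j p)).card : ℝ) ≤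
      C / lam ^ 2 * i / j * ((s.filter (fun p => lam < rr s τ j p)).card : ℝ)

/-- LEV: the sum over the levels -/
def S_LEV : Prop := ∀ (s : Finset ℕ) (J : ℕ) (B : ℕ → Finset ℕ) (D : ℝ), 0 < D → (∀ j, B j ⊆ s) →
  (∀ i j : ℕ, 1 ≤ i → i ≤ j → j ≤ J → ((B i ∩ B j).card : ℝ) ≤ D * i / j * ((B j).card : ℝ)) →
  ∑ j ∈ Icc 1 J, 1 / (j : ℝ) * ((B j).card : ℝ) ≤ 8 * D ^ (1 / 4 : ℝ) * (s.card : ℝ)

/-- SUM: from the level sets to the function -/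
def S_SUM : Prop := ∀ (s : Finset ℕ) (J : ℕ) (r : ℕ → ℕ → ℝ) (C₁ C₂ : ℝ), 0 < C₁ → 0 < C₂ →
  (∀ j p, 0 ≤ r j p) → (∀ j ∈ Icc 1 J, ∀ p ∈ s, r j p ≤ C₁) →
  (∀ lam : ℝ, 0 < lam → ∑ j ∈ Icc 1 J, 1 / (j : ℝ) * ((s.filter (fun p => lam < r j p)).card : ℝ) ≤
    C₂ * lam ^ (-(1 / 2) : ℝ) * (s.card : ℝ)) →
  ∑ p ∈ s, ∑ j ∈ Icc 1 J, 1 / (j : ℝ) * r j p ≤ (C₁ + 4 * C₂ * C₁ ^ (1 / 2 : ℝ)) * (s.card : ℝ)

/-- AVG: the average over the shifts of the grid -/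
def S_AVG : Prop := ∀ (s : Finset ℕ) (J : ℕ) (C : ℝ), (∀ p ∈ s, 4 * p < 2 ^ J) →
  (∀ τ : ℕ, ∑ p ∈ s, ∑ j ∈ Icc 1 J, (mm s τ j p : ℝ) / 2 ^ j ≤ C) →
  ∑ p ∈ s, ∑ q ∈ s.filter (fun q => p < q), (1 : ℝ) / ((q : ℝ) - (p : ℝ)) ≤ 4 * C

/-- BTB: Brun-Titchmarsh for the cells -/
def S_BTB : Prop := ∃ C : ℝ, 0 < C ∧ ∀ s : Finset ℕ, (∀ p ∈ s, p.Prime) → ∀ τ j p : ℕ, 1 ≤ j → p ∈ s →
  rr s τ j p ≤ C

/-- PRS: the pair bound for primes -/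
def S_PRS : Prop := ∃ C : ℝ, 0 < C ∧ ∀ s : Finset ℕ, (∀ p ∈ s, p.Prime) → ∀ τ : ℕ, PairHyp s τ C

end Pool.Agent.K6.H26.RD
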